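import Pool.Agent.V8H53.Com.Main

/-!
# Random perturbations of a map along a commuting map

`T` and `R` are commuting measure preserving maps of a probability space `X`, and `T` induces a map
`S` without periodic points on a factor `Y` of `X` whose points are fixed by `R` (so `R` acts in the
fibres of `π : X → Y`). For example `X = Y × Z`, `T (y, z) = (S y, V z)` and `R (y, z) = (y, U z)` with
arbitrary commuting `U`, `V` (for instance `V = id`).

For a measurable set `B` of `Y` the perturbed map applies `R` before `T` over `B` (in the example: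
`(y, z) ↦ (S y, V U^(1_B(y)) z)`). There is a countable partition of `Y` such that for a union `B` of
pieces chosen at random, by independent coin tosses, almost surely: for the perturbed map `T'`, the
multiple averages of all bounded functions, of all orders, behave almost everywhere as the averages
along `T` of the conditional expectations given the `R`-invariant sets. In particular the averages
along `T'` converge for all bounded functions if and only if the averages along `T` do for all bounded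
`R`-invariant functions. In the example with `U` ergodic these are the functions of `y`, so that
Q1 for `T'` is equivalent to Q1 for `S`.
-/

set_option autoImplicit false

open MeasureTheory Filter Topology

namespace Pool.Agent.Results.MP_9721b5_an.CommutingPerturbations

universe u v

open Classical in
/-- the map `T`, preceded by `R` at the points over the set `B` -/
noncomputable def perturbed {X : Type v} {Y : Type u} (T R : X → X) (π : X → Y) (B : Set Y) (x : X) : X :=
  T (if π x ∈ B then R x else x)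

/-- the multiple averages `(1/N) ∑_{n=1}^N ∏_j f_j (T^(a_j n) x)` -/
noncomputable def avg {X : Type v} (T : X → X) {m : ℕ} (a : Fin m → ℕ) (f : Fin m → X → ℂ) (N : ℕ) (x : X) : ℂ :=
  (N : ℂ)⁻¹ * ∑ n ∈ Finset.Icc 1 N, ∏ j, f j (T^[a j * n] x)

/-- `T` and `R` are commuting measure preserving maps of `(X, lam)`, and `π` is a factor map from
`(X, lam, T)` onto `(Y, μ, S)` whose fibres are preserved by `R` -/
structure CommutingOver {X : Type v} {Y : Type u} [MeasurableSpace X] [MeasurableSpace Y] (lam : Measure X)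
    (T R : X → X) (μ : Measure Y) (S : Y → Y) (π : X → Y) : Prop where
  mpT : MeasurePreserving T lam lam
  mpR : MeasurePreserving R lam lam
  mpπ : MeasurePreserving π lam μ
  comm : ∀ x, T (R x) = R (T x)
  factor : ∀ x, π (T x) = S (π x)
  fibre : ∀ x, π (R x) = π x

/-- `T'` preserves the measure; the multiple averages along `T'` have the same behaviour as the averages
along `T` of the conditional expectations given the `R`-invariant sets; and they converge almost
everywhere for all bounded functions if and only if the averages along `T` do for all bounded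
`R`-invariant functions -/
structure Good {X : Type v} [MeasurableSpace X] (lam : Measure X) (T R T' : X → X) : Prop where
  mp : MeasurePreserving T' lam lam
  char : ∀ (m : ℕ) (a : Fin m → ℕ), StrictMono a → (∀ j, 0 < a j) → ∀ f : Fin m → X → ℂ,
    (∀ j, Measurable (f j)) → (∃ C : ℝ, ∀ j x, ‖f j x‖ ≤ C) →
    ∀ᵐ x ∂lam, Tendsto (fun N : ℕ => avg T' a f N x -
      avg T a (fun j => lam[f j | MeasurableSpace.invariants R]) N x) atTop (𝓝 0)
  transfer : ∀ (m : ℕ) (a : Fin m → ℕ), StrictMono a → (∀ j, 0 < a j) →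
    ((∀ f : Fin m → X → ℂ, (∀ j, Measurable (f j)) → (∃ C : ℝ, ∀ j x, ‖f j x‖ ≤ C) →
      ∀ᵐ x ∂lam, ∃ L : ℂ, Tendsto (fun N : ℕ => avg T' a f N x) atTop (𝓝 L)) ↔
    (∀ g : Fin m → X → ℂ, (∀ j, Measurable (g j)) → (∃ C : ℝ, ∀ j x, ‖g j x‖ ≤ C) →
      (∀ j x, g j (R x) = g j x) →
      ∀ᵐ x ∂lam, ∃ L : ℂ, Tendsto (fun N : ℕ => avg T a g N x) atTop (𝓝 L)))

open Pool.Agent.V8H53.Com Pool.Agent.V8H53.Ind in
lemma good_of {X : Type v} {Y : Type u} [MeasurableSpace X] [MeasurableSpace Y] {lam : Measure X}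
    [IsProbabilityMeasure lam] {μ : Measure Y} {T R : X → X} {S : Y → Y} {π : X → Y}
    (h : CommutingOver lam T R μ S π) {ξ : Y → ℕ} (hξ : Measurable ξ) {θ : ℕ → Bool}
    (hθ : ∀ (m : ℕ) (a : Fin m → ℕ), StrictMono a → (∀ j, 0 < a j) → ∀ f : Fin m → X → ℂ,
        (∀ j, Measurable (f j)) → (∃ C : ℝ, ∀ j x, ‖f j x‖ ≤ C) →
        ∀ᵐ x ∂lam, Tendsto (fun N : ℕ => (N : ℂ)⁻¹ * ∑ n ∈ Finset.Icc 1 N,
          (∏ j, f j ((pm T R π ξ θ)^[a j * n] x) -
            ∏ j, (lam[f j | MeasurableSpace.invariants R]) (T^[a j * n] x))) atTop (𝓝 0)) :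
    Good lam T R (perturbed T R π {y | θ (ξ y) = true}) := by
  have hst : Setup T R π S := ⟨h.comm, h.factor, h.fibre⟩
  have hpm : perturbed T R π {y | θ (ξ y) = true} = pm T R π ξ θ := by
    funext x
    unfold perturbed pm
    congr 1
    by_cases hb : θ (ξ (π x)) = true
    · rw [if_pos hb, if_pos (show π x ∈ {y | θ (ξ y) = true} from hb)]
    · rw [if_neg hb, if_neg (show π x ∉ {y | θ (ξ y) = true} from hb)]
  rw [hpm]
  have hchar : ∀ (m : ℕ) (a : Fin m → ℕ), StrictMono a → (∀ j, 0 < a j) → ∀ f : Fin m → X → ℂ,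
      (∀ j, Measurable (f j)) → (∃ C : ℝ, ∀ j x, ‖f j x‖ ≤ C) →
      ∀ᵐ x ∂lam, Tendsto (fun N : ℕ => avg (pm T R π ξ θ) a f N x -
        avg T a (fun j => lam[f j | MeasurableSpace.invariants R]) N x) atTop (𝓝 0) := by
    intro m a ha ha0 f hf hfb
    filter_upwards [hθ m a ha ha0 f hf hfb] with x hx
    refine hx.congr fun N => ?_
    unfold avg
    rw [← mul_sub, Finset.sum_sub_distrib]
  refine ⟨mp_pm hst h.mpT h.mpR h.mpπ.measurable hξ, hchar, ?_⟩
  intro m a ha ha0
  constructor
  · intro hconv g hg hgb hinv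
    filter_upwards [hconv g hg hgb] with x hx
    obtain ⟨L, hL⟩ := hx
    refine ⟨L, hL.congr fun N => ?_⟩
    unfold avg
    congr 1
    refine Finset.sum_congr rfl fun n _ => Finset.prod_congr rfl fun j _ => ?_
    exact pm_inv hst ξ θ (g j) (hinv j) _ x
  · intro hconv f hf hfb
    obtain ⟨C, hC⟩ := hfb
    have hC' : ∀ j x, ‖f j x‖ ≤ max C 0 := fun j x => (hC j x).trans (le_max_left _ _)
    have h1 := hconv (fun j => ce lam R (max C 0) (f j)) (fun j => ce_meas _ _ _ _)
      ⟨max C 0, fun j x => ce_bound _ _ _ (le_max_right _ _) _ x⟩ (fun j x => ce_inv _ _ _ _ x)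
    have h2 : ∀ᵐ x ∂lam, ∀ (j : Fin m) (t : ℕ), ce lam R (max C 0) (f j) (T^[t] x) =
        (lam[f j | MeasurableSpace.invariants R]) (T^[t] x) := by
      rw [ae_all_iff]; intro j
      rw [ae_all_iff]; intro t
      exact (h.mpT.iterate t).quasiMeasurePreserving.ae (ce_ae lam R (max C 0) (f j) (hC' j))
    filter_upwards [h1, h2, hchar m a ha ha0 f hf ⟨C, hC⟩] with x g1 g2 g3
    obtain ⟨L, hL⟩ := g1
    refine ⟨L, ?_⟩
    have e1 : ∀ N, avg T a (fun j => ce lam R (max C 0) (f j)) N x =
        avg T a (fun j => lam[f j | MeasurableSpace.invariants R]) N x := by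
      intro N
      unfold avg
      congr 1
      exact Finset.sum_congr rfl fun n _ => Finset.prod_congr rfl fun j _ => g2 j _
    have h3 := g3.add hL
    rw [zero_add] at h3
    refine h3.congr fun N => ?_
    rw [e1]
    ring

open Pool.Agent.V8H53.Com Pool.Agent.V8H53.Ind in
/-- **Main theorem.** -/
theorem result {Y : Type u} [MeasurableSpace Y] [StandardBorelSpace Y] (μ : Measure Y)
    [IsProbabilityMeasure μ] (S : Y ≃ᵐ Y) (hS : MeasurePreserving S μ μ)
    (hap : ∀ᵐ y ∂μ, ∀ n : ℕ, 0 < n → S^[n] y ≠ y) :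
    ∃ ξ : Y → ℕ, Measurable ξ ∧ ∀ (X : Type v) [MeasurableSpace X] [MeasurableSpace.CountablyGenerated X]
      (lam : Measure X) [IsProbabilityMeasure lam] (T R : X → X) (π : X → Y),
      CommutingOver lam T R μ S π →
      (∀ (ν : Measure Bool) [IsProbabilityMeasure ν], 0 < ν {true} → 0 < ν {false} →
        ∀ᵐ θ ∂(Measure.infinitePi fun _ : ℕ => ν), Good lam T R (perturbed T R π {y | θ (ξ y) = true})) ∧
      ∀ ε : ℝ, 0 < ε → ∃ B : Set Y, MeasurableSet B ∧ μ.real B < ε ∧ Good lam T R (perturbed T R π B) := by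
  obtain ⟨ξ, hξ, hfr⟩ := Pool.Agent.R205.PC.exists_labels μ S hS hap
    Pool.Agent.R205.PC.Lk Pool.Agent.R205.PC.Lk_mono
  refine ⟨ξ, hξ, ?_⟩
  intro X _ _ lam _ T R π h
  have hfr' : ∀ᵐ x ∂lam, Pool.Agent.R205.PC.Fresh S ξ (π x) := h.mpπ.quasiMeasurePreserving.ae hfr
  have hst : Setup T R π S := ⟨h.comm, h.factor, h.fibre⟩
  have key : ∀ (ν : Measure Bool) [IsProbabilityMeasure ν], 0 < ν {true} → 0 < ν {false} →
        ∀ᵐ θ ∂(Measure.infinitePi fun _ : ℕ => ν), Good lam T R (perturbed T R π {y | θ (ξ y) = true}) := by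
    intro ν _ h1 h2
    filter_upwards [main ν h1 h2 hst h.mpT h.mpR h.mpπ.measurable S.measurable hξ hfr'] with θ hθ
    exact good_of h hξ hθ
  refine ⟨key, fun ε hε => ?_⟩
  set p : ℝ := min ε 1 / 2 with hp
  have hm0 : 0 < min ε 1 := lt_min hε one_pos
  have hm1 : min ε 1 ≤ 1 := min_le_right _ _
  have hp0 : 0 < p := by linarith
  have hp1 : p < 1 := by linarith
  set ν : Measure Bool := ENNReal.ofReal p • Measure.dirac true + ENNReal.ofReal (1 - p) • Measure.dirac false with hν
  have hν1 : ν {true} = ENNReal.ofReal p := by simp [hν]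
  have hν2 : ν {false} = ENNReal.ofReal (1 - p) := by simp [hν]
  have hνp : IsProbabilityMeasure ν := ⟨by
    rw [hν]
    simp only [Measure.coe_add, Measure.coe_smul, Pi.add_apply, Pi.smul_apply, measure_univ, smul_eq_mul, mul_one]
    rw [← ENNReal.ofReal_add hp0.le (by linarith)]
    simp⟩
  have h1 := key ν (by rw [hν1]; exact ENNReal.ofReal_pos.2 hp0) (by rw [hν2]; exact ENNReal.ofReal_pos.2 (by linarith))
  have h2 := pos_small (μ := μ) ν hξ
  have h3 : ∃ᶠ θ in ae (Measure.infinitePi fun _ : ℕ => ν), μ (thin ξ θ) ≤ ν {true} := by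
    rw [frequently_ae_iff]
    exact h2.ne'
  obtain ⟨θ, hθ1, hθ2⟩ := (h3.and_eventually h1).exists
  refine ⟨{y | θ (ξ y) = true}, meas_thin hξ θ, ?_, hθ2⟩
  have h4 : μ.real (thin ξ θ) ≤ p := by
    rw [hν1] at hθ1
    exact ENNReal.toReal_le_of_le_ofReal hp0.le hθ1
  have h5 : min ε 1 ≤ ε := min_le_left _ _
  have h6 : μ.real (thin ξ θ) = μ.real {y | θ (ξ y) = true} := rfl
  rw [← h6]
  linarith

end Pool.Agent.Results.MP_9721b5_an.CommutingPerturbations
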