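import Pool.Agent.V8H53.Ind.Pos

/-!
# Almost every induced map of an ergodic system has pointwise convergent multiple averages

Let `S` be an ergodic aperiodic automorphism of a standard Borel probability space. There is a
countable measurable labelling of the space such that, when each label is kept or dropped by
independent coin tosses, for almost every outcome the first return map of `S` to the set `A` of
points with a kept label is ergodic and satisfies: for every number of factors, all strictly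
increasing positive exponents (for instance `1, 2, 3`) and all bounded measurable functions, the
multiple averages converge almost everywhere, to the product of the integrals. In particular each
`S` has such induced maps on sets of measure arbitrarily close to one.
-/

set_option autoImplicit false

open MeasureTheory Filter Topology

namespace Pool.Agent.Results.MP_9721b5_an.InducedMaps

/-- The first return time of `y` to `A` under `S` (zero if the orbit of `y` never comes to `A` at a
positive time). -/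
noncomputable def returnTime {Y : Type*} (S : Y → Y) (A : Set Y) (y : Y) : ℕ :=
  sInf {s : ℕ | 0 < s ∧ S^[s] y ∈ A}

/-- The induced map (first return map) of `S` on `A`. -/
noncomputable def inducedMap {Y : Type*} (S : Y → Y) (A : Set Y) (y : Y) : Y :=
  S^[returnTime S A y] y

/-- Almost everywhere convergence of the multiple averages
`(1/N) ∑ n ∈ {1, …, N}, f₁ (T^(a₁ n) y) ⋯ f_m (T^(a_m n) y)` to the product of the integrals, for all
`m`, all exponents `0 < a₁ < ⋯ < a_m` and all bounded measurable functions. -/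
def PointwiseMultiple {Y : Type*} [MeasurableSpace Y] (T : Y → Y) (ρ : Measure Y) : Prop :=
  ∀ (m : ℕ) (a : Fin m → ℕ), StrictMono a → (∀ j, 0 < a j) → ∀ f : Fin m → Y → ℂ,
    (∀ j, Measurable (f j)) → (∃ C : ℝ, ∀ j y, ‖f j y‖ ≤ C) →
    ∀ᵐ y ∂ρ, Tendsto (fun N : ℕ => (N : ℂ)⁻¹ * ∑ n ∈ Finset.Icc 1 N, ∏ j, f j (T^[a j * n] y)) atTop
      (𝓝 (∏ j, ∫ z, f j z ∂ρ))

/-- The induced system of `S` on `A` (with the normalised restriction of `μ` to `A`) is a well
defined ergodic system for which all multiple averages converge almost everywhere. -/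
structure GoodInduced {Y : Type*} [MeasurableSpace Y] (μ : Measure Y) (S : Y → Y) (A : Set Y) : Prop where
  meas : MeasurableSet A
  pos : 0 < μ A
  ergodic : Ergodic (inducedMap S A) (ProbabilityTheory.cond μ A)
  conv : PointwiseMultiple (inducedMap S A) (ProbabilityTheory.cond μ A)

open Pool.Agent.V8H53.Ind in
lemma good_of {Y : Type*} [MeasurableSpace Y] {μ : Measure Y} [IsProbabilityMeasure μ] {S : Y → Y}
    {A : Set Y} (hA : MeasurableSet A) (h0 : 0 < μ.real A) (he : Ergodic (ind S A) (μ.restrict A))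
    (hc : ∀ (m : ℕ) (a : Fin m → ℕ), StrictMono a → (∀ j, 0 < a j) → ∀ f : Fin m → Y → ℂ,
        (∀ j, Measurable (f j)) → (∃ C : ℝ, ∀ j y, ‖f j y‖ ≤ C) →
        ∀ᵐ y ∂(μ.restrict A), Tendsto (fun N : ℕ => (N : ℂ)⁻¹ * ∑ n ∈ Finset.Icc 1 N,
          ∏ j, f j ((ind S A)^[a j * n] y)) atTop
          (𝓝 (∏ j, ((μ.real A : ℂ)⁻¹ * ∫ y in A, f j y ∂μ)))) : GoodInduced μ S A := by
  have hind : inducedMap S A = ind S A := rfl
  have hint : ∀ f : Y → ℂ, ∫ z, f z ∂(ProbabilityTheory.cond μ A) = (μ.real A : ℂ)⁻¹ * ∫ y in A, f y ∂μ := by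
    intro f
    unfold ProbabilityTheory.cond
    rw [integral_smul_measure, ENNReal.toReal_inv, Complex.real_smul, Complex.ofReal_inv]
    rfl
  refine ⟨hA, ?_, ?_, ?_⟩
  · by_contra h
    have h1 : μ A = 0 := by simpa using h
    rw [Measure.real, h1] at h0
    simp at h0
  · rw [hind]
    exact he.smul_measure _
  · intro m a ha ha0 f hf hfb
    rw [hind]
    simp only [hint]
    exact (Measure.smul_absolutelyContinuous (μ := μ.restrict A)).ae_le (hc m a ha ha0 f hf hfb)

open Pool.Agent.V8H53.Ind in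
/-- **Main theorem.** -/
theorem result {Y : Type*} [MeasurableSpace Y] [StandardBorelSpace Y] (μ : Measure Y)
    [IsProbabilityMeasure μ] (S : Y ≃ᵐ Y) (hS : Ergodic S μ)
    (hap : ∀ᵐ y ∂μ, ∀ n : ℕ, 0 < n → S^[n] y ≠ y) :
    (∃ ξ : Y → ℕ, Measurable ξ ∧ ∀ (ν : Measure Bool) [IsProbabilityMeasure ν],
      0 < ν {true} → 0 < ν {false} →
      ∀ᵐ θ ∂(Measure.infinitePi fun _ : ℕ => ν), GoodInduced μ S {y | θ (ξ y) = true}) ∧
    ∀ ε : ℝ, 0 < ε → ∃ A : Set Y, 1 - ε < μ.real A ∧ GoodInduced μ S A := by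
  obtain ⟨ξ, hξ, hfr⟩ := Pool.Agent.R205.PC.exists_labels μ S hS.toMeasurePreserving hap
    Pool.Agent.R205.PC.Lk Pool.Agent.R205.PC.Lk_mono
  have key : ∀ (ν : Measure Bool) [IsProbabilityMeasure ν], 0 < ν {true} → 0 < ν {false} →
      ∀ᵐ θ ∂(Measure.infinitePi fun _ : ℕ => ν), GoodInduced μ S {y | θ (ξ y) = true} := by
    intro ν _ h1 h2
    filter_upwards [main ν h1 h2 hS hξ hfr] with θ hθ
    exact good_of (meas_thin hξ θ) hθ.1 hθ.2.1 hθ.2.2
  refine ⟨⟨ξ, hξ, key⟩, fun ε hε => ?_⟩
  set p : ℝ := 1 - min ε 1 / 2 with hp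
  have hm0 : 0 < min ε 1 := lt_min hε one_pos
  have hm1 : min ε 1 ≤ 1 := min_le_right _ _
  have hp0 : 0 < p := by linarith
  have hp1 : p < 1 := by linarith
  set ν : Measure Bool := ENNReal.ofReal p • Measure.dirac true + ENNReal.ofReal (1 - p) • Measure.dirac false with hν
  have hν1 : ν {true} = ENNReal.ofReal p := by simp [hν]
  have hν2 : ν {false} = ENNReal.ofReal (1 - p) := by simp [hν]
  have : IsProbabilityMeasure ν := ⟨by
    rw [hν]
    simp only [Measure.coe_add, Measure.coe_smul, Pi.add_apply, Pi.smul_apply, measure_univ, smul_eq_mul, mul_one]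
    rw [← ENNReal.ofReal_add hp0.le (by linarith)]
    simp⟩
  have h1 := key ν (by rw [hν1]; exact ENNReal.ofReal_pos.2 hp0) (by rw [hν2]; exact ENNReal.ofReal_pos.2 (by linarith))
  have h2 := pos_big (μ := μ) ν hξ
  have h3 : ∃ᶠ θ in ae (Measure.infinitePi fun _ : ℕ => ν), ν {true} ≤ μ (thin ξ θ) := by
    rw [frequently_ae_iff]
    exact h2.ne'
  obtain ⟨θ, hθ1, hθ2⟩ := (h3.and_eventually h1).exists
  refine ⟨{y | θ (ξ y) = true}, ?_, hθ2⟩
  have h4 : p ≤ μ.real (thin ξ θ) := by
    rw [hν1] at hθ1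
    exact (ENNReal.ofReal_le_iff_le_toReal (measure_ne_top _ _)).1 hθ1
  have h5 : min ε 1 ≤ ε := min_le_left _ _
  have h6 : μ.real (thin ξ θ) = μ.real {y | θ (ξ y) = true} := rfl
  rw [← h6]
  linarith

end Pool.Agent.Results.MP_9721b5_an.InducedMaps
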