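import Pool.Agent.V8H23.Tow.Gen
import Pool.Agent.V8H23.Tow.Two

/-!
# Delays inside a small set make all multiple averages converge

Let `R` be a measure preserving automorphism of a probability space `X`. For a measurable set `B` the
delay map lives on the tower over `X` whose upper floor is a copy of `B`: a point of `B` waits one unit of
time on the upper floor before it is moved by `R`. We take delays which depend only on the image of the
point in a factor `Y` of `X` without periodic points (for instance `Y = X`; or `X = Y × Z` and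
`R (y, z) = (S y, V z)` with `V` an arbitrary system and `S` an irrational rotation). The delays `B₀` may be
prescribed arbitrarily off a set `D ⊆ Y`, however small, which is visited by almost every orbit; inside `D`
they are chosen at random, by independent coin tosses attached to a countable partition of `Y`. Almost
surely, the delay map satisfies the conclusion of the problem, for all orders and all exponents: all
multiple averages of bounded functions converge almost everywhere, to the product of the conditional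
expectations given the invariant sets. No ergodicity is assumed.
-/

set_option autoImplicit false
set_option linter.unusedSectionVars false

open MeasureTheory Filter Topology
open scoped ENNReal

namespace Pool.Agent.Results.MP_9721b5_an.LocalDelays

universe u v

open Classical in
/-- The delay map: a point `x` of `B` first goes to the upper floor, from `(x, false)` to `(x, true)`,
and then to `(R x, false)`; the other points go from `(x, false)` directly to `(R x, false)`. -/
noncomputable def delay {X : Type v} (R : X → X) (B : Set X) (z : X × Bool) : X × Bool :=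
  if z.2 = false ∧ z.1 ∈ B then (z.1, true) else (R z.1, false)

/-- The tower: the ground floor is a copy of `X`, the upper floor a copy of `B`. -/
def tower {X : Type v} (B : Set X) : Set (X × Bool) := {z | z.2 = true → z.1 ∈ B}

/-- The normalised measure of the tower. -/
noncomputable def towerMeasure {X : Type v} [MeasurableSpace X] (ρ : Measure X) (B : Set X) :
    Measure (X × Bool) :=
  (1 + ρ B)⁻¹ • (ρ.map (fun x => (x, false)) + (ρ.restrict B).map (fun x => (x, true)))

/-- Almost everywhere convergence of the multiple averages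
`(1/N) ∑ n ∈ {1, …, N}, f₁ (T^(a₁ n) z) ⋯ f_m (T^(a_m n) z)`, for all `m`, all exponents
`0 < a₁ < ⋯ < a_m` and all bounded measurable functions, to the product of the conditional
expectations of the functions given the `T`-invariant sets. -/
def PointwiseMultiple {Z : Type v} [MeasurableSpace Z] (T : Z → Z) (τ : Measure Z) : Prop :=
  ∀ (m : ℕ) (a : Fin m → ℕ), StrictMono a → (∀ j, 0 < a j) → ∀ f : Fin m → Z → ℂ,
    (∀ j, Measurable (f j)) → (∃ C : ℝ, ∀ j z, ‖f j z‖ ≤ C) →
    ∀ᵐ z ∂τ, Tendsto (fun N : ℕ => (N : ℂ)⁻¹ * ∑ n ∈ Finset.Icc 1 N, ∏ j, f j (T^[a j * n] z)) atTop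
      (𝓝 (∏ j, (τ[f j | MeasurableSpace.invariants T]) z))

/-- The delay map of `R` with the delays `B` is a measure preserving bijective map of the tower, for which
all multiple averages converge almost everywhere. If `R` is ergodic then so is the delay map, and the
conditional expectations in the limits are the integrals. -/
structure GoodDelay {X : Type v} [MeasurableSpace X] (ρ : Measure X) (R : X → X) (B : Set X) : Prop where
  meas : MeasurableSet B
  bij : Set.BijOn (delay R B) (tower B) (tower B)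
  prob : IsProbabilityMeasure (towerMeasure ρ B)
  supp : towerMeasure ρ B (tower B)ᶜ = 0
  pres : MeasurePreserving (delay R B) (towerMeasure ρ B) (towerMeasure ρ B)
  ergodic : Ergodic R ρ → Ergodic (delay R B) (towerMeasure ρ B)
  mean : Ergodic R ρ → ∀ f : X × Bool → ℂ, Measurable f → (∃ C : ℝ, ∀ z, ‖f z‖ ≤ C) →
    ∀ᵐ z ∂(towerMeasure ρ B), ((towerMeasure ρ B)[f | MeasurableSpace.invariants (delay R B)]) z =
      ∫ w, f w ∂(towerMeasure ρ B)
  conv : PointwiseMultiple (delay R B) (towerMeasure ρ B)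

section
open Pool.Agent.V8H53.Ind Pool.Agent.V8H23.Tow
open Pool.Agent.R205.PC (ex fx dd dd_meas dd_bound dd_approx)

variable {X : Type v} [MeasurableSpace X]

lemma meas_tower {B : Set X} (hB : MeasurableSet B) : MeasurableSet (tower B) := by
  have : tower B = {z : X × Bool | z.2 = true}ᶜ ∪ {z : X × Bool | z.1 ∈ B} := by
    ext z; simp only [tower, Set.mem_ofPred_eq, Set.mem_union, Set.mem_compl_iff]; tauto
  rw [this]
  exact (measurable_snd (measurableSet_singleton true)).compl.union (measurable_fst hB)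

lemma ind_two (S : X ≃ᵐ X) (B : Set X) : ind (twoE S) (tower B) = delay S B := by
  classical
  have key : ∀ (z : X × Bool) (k : ℕ), 0 < k → (twoE S)^[k] z ∈ tower B →
      (∀ s, 0 < s → s < k → (twoE S)^[s] z ∉ tower B) → ind (twoE S) (tower B) z = (twoE S)^[k] z := by
    intro z k hk h1 h2
    have h3 : ret (twoE S) (tower B) z = k := by
      apply le_antisymm
      · exact Nat.sInf_le ⟨hk, h1⟩
      · have hne : ({s : ℕ | 0 < s ∧ (twoE S)^[s] z ∈ tower B} : Set ℕ).Nonempty := ⟨k, hk, h1⟩
        obtain ⟨h4, h5⟩ := Nat.sInf_mem hne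
        by_contra hcon
        exact h2 _ h4 (not_le.1 hcon) h5
    unfold ind
    rw [h3]
  ext1 z
  obtain ⟨y, b⟩ := z
  cases b
  · by_cases hy : y ∈ B
    · have h1 : (twoE S)^[1] (y, false) = (y, true) := rfl
      rw [key (y, false) 1 one_pos (by rw [h1]; intro _; exact hy) (by intro s hs hs'; omega), h1]
      simp [delay, hy]
    · have h1 : (twoE S)^[1] (y, false) = (y, true) := rfl
      have h2 : (twoE S)^[2] (y, false) = (S y, false) := rfl
      rw [key (y, false) 2 two_pos (by rw [h2]; intro h; simp at h) (by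
        intro s hs hs'
        have : s = 1 := by omega
        subst this
        rw [h1]
        intro h
        exact hy (h rfl)), h2]
      simp [delay, hy]
  · have h1 : (twoE S)^[1] (y, true) = (S y, false) := rfl
    rw [key (y, true) 1 one_pos (by rw [h1]; intro h; simp at h) (by intro s hs hs'; omega), h1]
    simp [delay]

lemma bij_delay (S : X ≃ᵐ X) (B : Set X) : Set.BijOn (delay S B) (tower B) (tower B) := by
  classical
  refine ⟨?_, ?_, ?_⟩
  · rintro ⟨y, b⟩ _
    unfold delay
    split_ifs with h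
    · intro _; exact h.2
    · intro h'; simp at h'
  · rintro ⟨y, b⟩ hz ⟨y', b'⟩ hz' heq
    unfold delay at heq
    simp only at heq
    split_ifs at heq with h1 h2 h2
    · simp only [Prod.mk.injEq, and_true] at heq
      rw [heq, h1.1, h2.1]
    · simp at heq
    · simp at heq
    · simp only [Prod.mk.injEq, and_true, EmbeddingLike.apply_eq_iff_eq] at heq
      subst heq
      cases b <;> cases b'
      · rfl
      · exact absurd ⟨rfl, hz' rfl⟩ h1
      · exact absurd ⟨rfl, hz rfl⟩ h2
      · rfl
  · rintro ⟨y, b⟩ hz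
    cases b
    · by_cases hy : S.symm y ∈ B
      · refine ⟨(S.symm y, true), fun _ => hy, ?_⟩
        unfold delay
        simp
      · refine ⟨(S.symm y, false), fun h => by simp at h, ?_⟩
        unfold delay
        simp [hy]
    · have hy : y ∈ B := hz rfl
      refine ⟨(y, false), fun h => by simp at h, ?_⟩
      unfold delay
      simp [hy]

lemma tower_apply (ρ : Measure X) (B : Set X) {s : Set (X × Bool)} (hs : MeasurableSet s) :
    towerMeasure ρ B s = (1 + ρ B)⁻¹ * (ρ {x | (x, false) ∈ s} + ρ ({x | (x, true) ∈ s} ∩ B)) := by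
  have hm : ∀ b : Bool, Measurable (fun y : X => (y, b)) := fun b => measurable_id.prodMk measurable_const
  unfold towerMeasure
  rw [Measure.smul_apply, Measure.add_apply, Measure.map_apply (hm false) hs, Measure.map_apply (hm true) hs,
    Measure.restrict_apply ((hm true) hs), smul_eq_mul]
  rfl

lemma mu2_tower {μ : Measure X} [IsProbabilityMeasure μ] {B : Set X} (hB : MeasurableSet B) :
    mu2 μ (tower B) = 2⁻¹ * (1 + μ B) := by
  rw [mu2_apply μ (meas_tower hB)]
  have e1 : {y | (y, false) ∈ tower B} = Set.univ := by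
    ext y; simp [tower]
  have e2 : {y | (y, true) ∈ tower B} = B := by
    ext y; simp [tower]
  rw [e1, e2, measure_univ]

lemma tower_cond {μ : Measure X} [IsProbabilityMeasure μ] {B : Set X} (hB : MeasurableSet B) :
    towerMeasure μ B = ProbabilityTheory.cond (mu2 μ) (tower B) := by
  have hT := meas_tower hB
  ext s hs
  rw [ProbabilityTheory.cond_apply hT, mu2_tower hB, mu2_apply μ (hT.inter hs), tower_apply μ B hs]
  have e1 : {y | (y, false) ∈ tower B ∩ s} = {y | (y, false) ∈ s} := by
    ext y; simp [tower]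
  have e2 : {y | (y, true) ∈ tower B ∩ s} = {y | (y, true) ∈ s} ∩ B := by
    ext y; simp [tower, and_comm]
  rw [e1, e2]
  have h2 : ∀ x : ℝ≥0∞, (2⁻¹ * (1 + μ B))⁻¹ * (2⁻¹ * x) = (1 + μ B)⁻¹ * x := by
    intro x
    rw [ENNReal.mul_inv (Or.inl (by simp)) (Or.inl (by simp)), inv_inv]
    calc 2 * (1 + μ B)⁻¹ * (2⁻¹ * x) = (2 * 2⁻¹) * ((1 + μ B)⁻¹ * x) := by ring
      _ = (1 + μ B)⁻¹ * x := by rw [ENNReal.mul_inv_cancel (by norm_num) (by norm_num), one_mul]
  rw [h2]

lemma tower_pos {μ : Measure X} [IsProbabilityMeasure μ] {B : Set X} (hB : MeasurableSet B) :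
    (1 / 2 : ℝ) ≤ (mu2 μ).real (tower B) := by
  have h1 : (2⁻¹ : ℝ≥0∞) ≤ mu2 μ (tower B) := by
    rw [mu2_tower hB]
    calc (2⁻¹ : ℝ≥0∞) = 2⁻¹ * 1 := by rw [mul_one]
      _ ≤ 2⁻¹ * (1 + μ B) := by gcongr; exact le_self_add
  have h2 := ENNReal.toReal_mono (measure_ne_top _ _) h1
  rw [ENNReal.toReal_inv] at h2
  simpa [Measure.real] using h2

lemma tower_prob {μ : Measure X} [IsProbabilityMeasure μ] {B : Set X} (hB : MeasurableSet B) :
    IsProbabilityMeasure (towerMeasure μ B) := by
  rw [tower_cond hB]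
  apply ProbabilityTheory.cond_isProbabilityMeasure
  intro h
  have h1 := tower_pos (μ := μ) hB
  rw [Measure.real, h] at h1
  norm_num at h1

lemma ae_tower {μ : Measure X} [IsProbabilityMeasure μ] {B : Set X} (hB : MeasurableSet B)
    {P : X × Bool → Prop} (h : ∀ᵐ z ∂((mu2 μ).restrict (tower B)), P z) : ∀ᵐ z ∂(towerMeasure μ B), P z := by
  rw [tower_cond hB]
  exact (Measure.smul_absolutelyContinuous (μ := (mu2 μ).restrict (tower B))).ae_le h

lemma int_tower {μ : Measure X} [IsProbabilityMeasure μ] {B : Set X} (hB : MeasurableSet B)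
    (G : X × Bool → ℝ) (h0 : ∀ z, 0 ≤ G z) (hG : Integrable G (mu2 μ)) :
    ∫ z, G z ∂(towerMeasure μ B) ≤ 2 * ∫ z, G z ∂(mu2 μ) := by
  rw [tower_cond hB]
  unfold ProbabilityTheory.cond
  rw [integral_smul_measure, ENNReal.toReal_inv, smul_eq_mul]
  have h1 := tower_pos (μ := μ) hB
  have h2 : ∫ z in tower B, G z ∂(mu2 μ) ≤ ∫ z, G z ∂(mu2 μ) :=
    setIntegral_le_integral hG (Eventually.of_forall h0)
  have h3 : ((mu2 μ) (tower B)).toReal = (mu2 μ).real (tower B) := rfl
  rw [h3]
  have h4 : ((mu2 μ).real (tower B))⁻¹ ≤ 2 := by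
    rw [inv_le_comm₀ (by linarith) (by norm_num)]
    linarith
  have h5 : 0 ≤ ∫ z in tower B, G z ∂(mu2 μ) := integral_nonneg h0
  have h6 : 0 ≤ ((mu2 μ).real (tower B))⁻¹ := by positivity
  nlinarith

lemma meas_delay (R : X ≃ᵐ X) {B : Set X} (hB : MeasurableSet B) : Measurable (delay R B) := by
  rw [← ind_two]
  exact meas_ind (twoE R).measurable (meas_tower hB)

lemma sec_false (R : X → X) (B : Set X) (s : Set (X × Bool)) :
    {x | (x, false) ∈ delay R B ⁻¹' s} = (B ∩ {x | (x, true) ∈ s}) ∪ (Bᶜ ∩ R ⁻¹' {x | (x, false) ∈ s}) := by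
  ext x
  by_cases hx : x ∈ B <;> simp [delay, hx]

lemma sec_true (R : X → X) (B : Set X) (s : Set (X × Bool)) :
    {x | (x, true) ∈ delay R B ⁻¹' s} = R ⁻¹' {x | (x, false) ∈ s} := by
  ext x
  simp [delay]

lemma mp_delay {ρ : Measure X} {R : X ≃ᵐ X} (hR : MeasurePreserving R ρ ρ) {B : Set X} (hB : MeasurableSet B) :
    MeasurePreserving (delay R B) (towerMeasure ρ B) (towerMeasure ρ B) := by
  have hm := meas_delay R hB
  refine ⟨hm, ?_⟩
  ext s hs
  rw [Measure.map_apply hm hs, tower_apply ρ B (hm hs), tower_apply ρ B hs, sec_false, sec_true]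
  congr 1
  have h0 := meas_sec hs false
  have h1 := meas_sec hs true
  have h2 : MeasurableSet (R ⁻¹' {x | (x, false) ∈ s}) := R.measurable h0
  rw [measure_union (by
    rw [Set.disjoint_left]
    rintro x ⟨g1, _⟩ ⟨g2, _⟩
    exact g2 g1) (hB.compl.inter h2)]
  have e1 : ρ (R ⁻¹' {x | (x, false) ∈ s} ∩ B) + ρ (Bᶜ ∩ R ⁻¹' {x | (x, false) ∈ s}) =
      ρ {x | (x, false) ∈ s} := by
    rw [Set.inter_comm Bᶜ, ← hR.measure_preimage h0.nullMeasurableSet]
    exact measure_inter_add_sdiff _ hB
  rw [← e1, Set.inter_comm B]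
  ring

lemma erg_delay {ρ : Measure X} [IsProbabilityMeasure ρ] {R : X ≃ᵐ X} (hR : Ergodic R ρ) {B : Set X}
    (hB : MeasurableSet B) : Ergodic (delay R B) (towerMeasure ρ B) := by
  refine { toMeasurePreserving := mp_delay hR.toMeasurePreserving hB, aeconst_set := ?_ }
  intro s hs hinv
  have hf := sec_false R B s
  have ht := sec_true R B s
  rw [hinv] at hf ht
  have h1 : R ⁻¹' {x | (x, false) ∈ s} = {x | (x, false) ∈ s} := by
    rw [← ht]
    ext x
    by_cases hx : x ∈ B
    · have : (x ∈ {x | (x, false) ∈ s}) ↔ x ∈ {x | (x, true) ∈ s} := by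
        rw [hf]; simp [hx]
      exact this.symm
    · have : (x ∈ {x | (x, false) ∈ s}) ↔ x ∈ R ⁻¹' {x | (x, false) ∈ s} := by
        conv_lhs => rw [hf]
        simp [hx]
      rw [← ht] at this
      exact this.symm
  have h2 : {x | (x, true) ∈ s} = {x | (x, false) ∈ s} := by rw [ht, h1]
  have h3 := hR.aeconst_set (meas_sec hs false) h1
  rw [eventuallyConst_set] at h3 ⊢
  rcases h3 with h3 | h3
  · left
    rw [ae_iff]
    have h4 : ρ {y | (y, false) ∈ s}ᶜ = 0 := by
      rw [ae_iff] at h3
      exact h3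
    have h5 := tower_apply ρ B hs.compl
    have h6 : {y | (y, false) ∈ sᶜ} = {y | (y, false) ∈ s}ᶜ := rfl
    have h7 : {y | (y, true) ∈ sᶜ} = {y | (y, true) ∈ s}ᶜ := rfl
    have h8 : ρ ({y | (y, false) ∈ s}ᶜ ∩ B) = 0 := measure_mono_null Set.inter_subset_left h4
    rw [h6, h7, h2, h4, h8, add_zero, mul_zero] at h5
    exact h5
  · right
    rw [ae_iff]
    have h4 : ρ {y | (y, false) ∈ s} = 0 := by
      rw [ae_iff] at h3
      simpa using h3
    have h5 := tower_apply ρ B hs
    have h8 : ρ ({y | (y, false) ∈ s} ∩ B) = 0 := measure_mono_null Set.inter_subset_left h4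
    rw [h2, h4, h8, add_zero, mul_zero] at h5
    simpa using h5

/-- the visits of the two level map to the tower are frequent -/
lemma lin_tower (R : X ≃ᵐ X) (B : Set X) {z : X × Bool} (hz : z ∈ tower B) : Lin (twoE R) (tower B) z := by
  classical
  set p : ℕ → Prop := fun s => (twoE R)^[s] z ∈ tower B with hp
  have hor : ∀ M, p (2 * M) ∨ p (2 * M + 1) := by
    intro M
    by_cases hb : z.2 = true
    · right
      simp only [hp]
      rw [Function.iterate_succ_apply', two_even]
      intro h
      rw [two_snd] at h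
      simp [hb] at h
    · left
      simp only [hp]
      rw [two_even]
      intro h
      exact absurd h hb
  have hinf : (Set.ofPred p).Infinite := by
    apply Set.infinite_of_forall_exists_gt
    intro n
    rcases hor (n + 1) with h | h
    · exact ⟨2 * (n + 1), h, by omega⟩
    · exact ⟨2 * (n + 1) + 1, h, by omega⟩
  have hcount : ∀ M, M + 1 ≤ Nat.count p (2 * M + 2) := by
    intro M
    induction M with
    | zero =>
      rw [show 2 * 0 + 2 = 1 + 1 from rfl, Nat.count_succ, Nat.count_succ, Nat.count_zero]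
      rcases hor 0 with h | h
      · rw [if_pos (show p 0 from h)]; omega
      · rw [if_pos (show p 1 from h)]; omega
    | succ M ih =>
      rw [show 2 * (M + 1) + 2 = (2 * M + 2) + 1 + 1 by ring, Nat.count_succ, Nat.count_succ]
      rcases hor (M + 1) with h | h
      · rw [if_pos (show p (2 * M + 2) from h)]; omega
      · rw [if_pos (show p (2 * M + 2 + 1) from h)]; omega
  refine ⟨hz, hinf, fun M => ?_⟩
  exact (Nat.nth_lt_of_lt_count (p := p) (k := M) (n := 2 * M + 2) (hcount M)).le

/-- the main step, before the labels of the floors are fixed -/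
lemma main_delay [MeasurableSpace.CountablyGenerated X] (ν : Measure Bool) [IsProbabilityMeasure ν]
    (hp : 0 < ν {true}) (hq : 0 < ν {false}) {ρ : Measure X} [IsProbabilityMeasure ρ] {R : X ≃ᵐ X}
    (hR : MeasurePreserving R ρ ρ) {ξ : X × Bool → ℕ} (hξ : Measurable ξ)
    (hfb : ∀ᵐ z ∂(mu2 ρ), FewBad (cy (twoE R) ξ z)) :
    ∀ᵐ θ ∂(PP ν), ∀ B : Set X, MeasurableSet B → thin ξ θ = tower B → GoodDelay ρ R B := by
  have hpr0 : 0 < pr ν := by
    unfold pr
    exact ENNReal.toReal_pos hp.ne' (measure_ne_top _ _)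
  have hpr1 : pr ν < 1 := by
    have h1 : 0 < ν.real {false} := ENNReal.toReal_pos hq.ne' (measure_ne_top _ _)
    rw [false_eq] at h1
    linarith
  filter_upwards [ae_theta_allg (twoE R) ξ ν hpr0 hpr1 (mu2 ρ) (twoE R).measurable hξ (dd (mu2 ρ))
    (dd_meas (mu2 ρ)) (dd_bound (mu2 ρ))] with θ hθ
  intro B hB hthin
  have hA := meas_tower hB
  have hprob := tower_prob (μ := ρ) hB
  have hT := mp_delay hR hB
  refine ⟨hB, bij_delay R B, hprob, ?_, hT, fun h => erg_delay h hB, ?_, ?_⟩
  · rw [tower_apply ρ B hA.compl]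
    have e1 : {x | (x, false) ∈ (tower B)ᶜ} = ∅ := by
      ext x; simp [tower]
    have e2 : {x | (x, true) ∈ (tower B)ᶜ} ∩ B = ∅ := by
      ext x; simp [tower]
    rw [e1, e2]
    simp
  · intro hRe f hf hfb'
    obtain ⟨C, hC⟩ := hfb'
    filter_upwards [Pool.Agent.V8H53.Com.birkE hT f hf C hC, birkC (erg_delay hRe hB) f hf C hC] with z g1 g2
    exact tendsto_nhds_unique g1 g2
  intro m a ha ha0 f hf hfb'
  obtain ⟨C, hC⟩ := hfb'
  set τ := towerMeasure ρ B with hτ
  set T := delay R B with hTd
  have hex : ∀ j (h : j < m), ex a j = a ⟨j, h⟩ := fun j h => by rw [ex, dif_pos h]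
  set M : ℕ := ⌈max C 0⌉₊ + 1 with hM
  have hCM : max C 0 + 1 ≤ (M : ℝ) := by
    rw [hM]; push_cast
    have := Nat.le_ceil (max C 0)
    linarith
  have hM1 : (1 : ℝ) ≤ M := by
    have : (0 : ℝ) ≤ max C 0 := le_max_right _ _
    linarith
  have hfxm : ∀ j, Measurable (fx f j) := by
    intro j
    unfold fx
    split_ifs with h
    · exact hf _
    · exact measurable_const
  have hfxb : ∀ j z, ‖fx f j z‖ ≤ max C 0 := by
    intro j z
    unfold fx
    split_ifs with h
    · exact (hC _ z).trans (le_max_left _ _)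
    · rw [norm_zero]; exact le_max_right _ _
  have hdd : ∀ u : Fin m → ℕ, ∀ᵐ x ∂τ, Tendsto (fun N : ℕ => (N : ℂ)⁻¹ * ∑ n ∈ Finset.range N,
      (∏ j ∈ Finset.range m, dd (mu2 ρ) (ex u j) M (T^[ex a j * (n + 1)] x) -
        ∏ j ∈ Finset.range m, Pool.Agent.V8H53.Com.ce τ T M (dd (mu2 ρ) (ex u j) M) (T^[ex a j * (n + 1)] x)))
      atTop (𝓝 0) := by
    intro u
    refine conv_one hT m (ex a) (fun j => dd (mu2 ρ) (ex u j) M) (fun j => dd_meas _ _ _) M (Nat.cast_nonneg M)
      (fun j x => dd_bound _ _ _ _) ?_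
    intro r hr i
    apply ae_tower hB
    filter_upwards [ae_restrict_of_ae (hθ m a u M r i ha ha0 hr), ae_restrict_of_ae hfb, ae_restrict_mem hA]
      with z g1 g2 g3
    have hlin : Lin (twoE R) (thin ξ θ) z := by
      rw [hthin]; exact lin_tower R B g3
    have g4 := psg_to_psi hlin g2 (ex a) (fun j => dd (mu2 ρ) (ex u j) M) M (Nat.cast_nonneg M)
      (fun j y => dd_bound _ _ _ _) r i (by rw [hex r hr]; exact ha0 _) g1
    have g5 := convert_seqg hlin (ex a) (fun j => dd (mu2 ρ) (ex u j) M) M (Nat.cast_nonneg M)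
      (fun j y => dd_bound _ _ _ _) r i g4
    rw [hthin, ind_two] at g5
    exact g5
  have h1 := closure_gen hT m (ex a) (fun u => dd (mu2 ρ) u M) (fun u => dd_meas _ _ _) M hM1
    (fun u x => dd_bound _ _ _ _) (fx f) hfxm (fun j x => (hfxb j x).trans (by linarith)) (by
      intro k j
      obtain ⟨u, hu⟩ := dd_approx (mu2 ρ) (fx f j) (hfxm _) (max C 0) (le_max_right _ _) (hfxb _) M hCM
        ((1 / ((k : ℝ) + 1)) / 2) (by positivity)
      refine ⟨u, ?_⟩
      have h2 := int_tower (μ := ρ) hB (fun z => ‖fx f j z - dd (mu2 ρ) u M z‖) (fun _ => norm_nonneg _)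
        (Integrable.of_bound ((hfxm _).sub (dd_meas _ _ _)).norm.aestronglyMeasurable (max C 0 + M)
          (Eventually.of_forall fun z => by
            rw [Real.norm_eq_abs, abs_of_nonneg (norm_nonneg _)]
            exact (norm_sub_le _ _).trans (add_le_add (hfxb _ _) (dd_bound _ _ _ _))))
      linarith) hdd
  have hinv : ∀ (j k : ℕ) (x : X × Bool), (τ[fx f j | MeasurableSpace.invariants T]) (T^[k] x) =
      (τ[fx f j | MeasurableSpace.invariants T]) x := by
    intro j k x
    have h2 : (τ[fx f j | MeasurableSpace.invariants T]) ∘ T = τ[fx f j | MeasurableSpace.invariants T] :=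
      MeasurableSpace.comp_eq_of_measurable_invariants stronglyMeasurable_condExp.measurable
    induction k with
    | zero => rfl
    | succ k ih =>
      rw [Function.iterate_succ_apply']
      have h3 : (τ[fx f j | MeasurableSpace.invariants T]) (T (T^[k] x)) =
        (τ[fx f j | MeasurableSpace.invariants T]) (T^[k] x) := congrFun h2 _
      rw [h3, ih]
  have e0 : ∀ j : Fin m, fx f j = f j := fun j => by
    unfold fx; rw [dif_pos j.2]
  have e1 : ∀ j : Fin m, ex a j = a j := fun j => by
    unfold ex; rw [dif_pos j.2]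
  filter_upwards [h1] with x hx
  simp only [hinv] at hx
  set c : ℂ := ∏ j ∈ Finset.range m, (τ[fx f j | MeasurableSpace.invariants T]) x with hc
  have hcc : c = ∏ j : Fin m, (τ[f j | MeasurableSpace.invariants T]) x := by
    rw [hc, ← Fin.prod_univ_eq_prod_range (fun j => (τ[fx f j | MeasurableSpace.invariants T]) x) m]
    refine Finset.prod_congr rfl fun j _ => ?_
    rw [e0 j]
  rw [← hcc]
  have hx2 := hx.add_const c
  rw [zero_add] at hx2
  refine hx2.congr' ?_
  filter_upwards [eventually_ge_atTop 1] with N hN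
  have hN0 : (N : ℂ) ≠ 0 := by
    have : N ≠ 0 := by omega
    exact_mod_cast this
  have e3 : ∑ n ∈ Finset.Icc 1 N, ∏ j, f j (T^[a j * n] x) =
      ∑ n ∈ Finset.range N, ∏ j, f j (T^[a j * (n + 1)] x) := by
    rw [Finset.range_eq_Ico, Finset.sum_Ico_add' (fun n => ∏ j, f j (T^[a j * n] x)) 0 N 1]
    rfl
  have e4 : ∀ n, ∏ j ∈ Finset.range m, fx f j (T^[ex a j * (n + 1)] x) = ∏ j, f j (T^[a j * (n + 1)] x) := by
    intro n
    rw [← Fin.prod_univ_eq_prod_range (fun j => fx f j (T^[ex a j * (n + 1)] x)) m]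
    refine Finset.prod_congr rfl fun j _ => ?_
    rw [e0 j, e1 j]
  rw [e3, Finset.sum_sub_distrib, Finset.sum_const, Finset.card_range, nsmul_eq_mul, mul_sub,
    ← mul_assoc, inv_mul_cancel₀ hN0, one_mul, sub_add_cancel]
  congr 1
  exact Finset.sum_congr rfl fun n _ => e4 n

end

open Pool.Agent.V8H53.Ind Pool.Agent.V8H23.Tow in
/-- **Main theorem.** -/
theorem result {Y : Type u} [MeasurableSpace Y] [StandardBorelSpace Y] (μ : Measure Y)
    [IsProbabilityMeasure μ] (S : Y ≃ᵐ Y) (hS : MeasurePreserving S μ μ)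
    (hap : ∀ᵐ y ∂μ, ∀ n : ℕ, 0 < n → S^[n] y ≠ y) (D B₀ : Set Y) (hD : MeasurableSet D)
    (hB₀ : MeasurableSet B₀) (hvis : ∀ᵐ y ∂μ, ∃ n : ℕ, S^[n] y ∈ D) :
    ∃ ξ : Y → ℕ, Measurable ξ ∧ ∀ (X : Type v) [MeasurableSpace X] [MeasurableSpace.CountablyGenerated X]
      (ρ : Measure X) [IsProbabilityMeasure ρ] (R : X ≃ᵐ X) (π : X → Y), MeasurePreserving R ρ ρ →
      MeasurePreserving π ρ μ → (∀ x, π (R x) = S (π x)) →
      ∀ (ν : Measure Bool) [IsProbabilityMeasure ν], 0 < ν {true} → 0 < ν {false} →
      ∀ᵐ θ ∂(Measure.infinitePi fun _ : ℕ => ν),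
        GoodDelay ρ R (π ⁻¹' ((B₀ \ D) ∪ {y | y ∈ D ∧ θ (ξ y) = true})) := by
  set D' : Set (Y × Bool) := {z | z.2 = true ∧ z.1 ∈ D} with hD'
  set E' : Set (Y × Bool) := {z | z.2 = true → z.1 ∈ B₀ \ D} with hE'
  have mD' : MeasurableSet D' := (measurable_snd (measurableSet_singleton true)).inter (measurable_fst hD)
  have mE' : MeasurableSet E' := meas_tower (hB₀.diff hD)
  obtain ⟨ξ', hξ', hfew, hl2, hl0, hl1⟩ := labels_few (mu2 μ) (twoE S) (mp_two hS) (ap_two hap) mD' mE'
    (vis_two hvis)
  have hξ : Measurable (fun y : Y => ξ' (y, true)) := hξ'.comp (measurable_id.prodMk measurable_const)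
  refine ⟨fun y => ξ' (y, true), hξ, ?_⟩
  intro X _ _ ρ _ R π hR hπ hfac ν _ h1 h2
  set pp : X × Bool → Y × Bool := fun z => (π z.1, z.2) with hpp
  have hmpp : MeasurePreserving pp (mu2 ρ) (mu2 μ) := mp_ext hπ
  have hξ2 : Measurable (fun z : X × Bool => ξ' (pp z)) := hξ'.comp hmpp.measurable
  have hfb : ∀ᵐ z ∂(mu2 ρ), FewBad (cy (twoE R) (fun z => ξ' (pp z)) z) := by
    filter_upwards [hmpp.quasiMeasurePreserving.ae hfew] with z hz
    rw [cy_ext (two_ext hfac) ξ' z]
    exact hz
  have hm := main_delay ν h1 h2 hR hξ2 hfb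
  have hm2 := ae_update ν h1 0 (ae_update ν h2 1 hm)
  filter_upwards [hm2] with θ hθ
  have hBm : MeasurableSet ((B₀ \ D) ∪ {y | y ∈ D ∧ θ (ξ' (y, true)) = true}) := by
    refine (hB₀.diff hD).union (hD.inter ?_)
    exact hξ (MeasurableSet.of_discrete (s := {n : ℕ | θ n = true}))
  apply hθ _ (hπ.measurable hBm)
  ext ⟨x, b⟩
  simp only [thin, tower, Set.mem_ofPred_eq, hpp]
  cases b
  · have h3 : (π x, false) ∉ D' := by simp [hD']
    have h4 : (π x, false) ∈ E' := by simp [hE']
    rw [hl0 _ h3 h4, Function.update_of_ne (by omega), Function.update_self]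
    simp
  · by_cases hxD : π x ∈ D
    · have h3 : (π x, true) ∈ D' := by simp [hD', hxD]
      have h5 := hl2 _ h3
      rw [Function.update_of_ne (by omega), Function.update_of_ne (by omega)]
      simp [hxD]
    · have h3 : (π x, true) ∉ D' := by simp [hD', hxD]
      by_cases hxB : π x ∈ B₀
      · have h4 : (π x, true) ∈ E' := by simp [hE', hxB, hxD]
        rw [hl0 _ h3 h4, Function.update_of_ne (by omega), Function.update_self]
        simp [hxD, hxB]
      · have h4 : (π x, true) ∉ E' := by simp [hE', hxB]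
        rw [hl1 _ h3 h4, Function.update_self]
        simp [hxD, hxB]

end Pool.Agent.Results.MP_9721b5_an.LocalDelays
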