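import Pool.Agent.V8H53.Sta.Fam

/-!
# The Host-Kra seminorms control multiple averages at most starting points of almost every orbit
-/

set_option autoImplicit false
set_option linter.unusedSectionVars false

open MeasureTheory Filter Topology Finset
open scoped ENNReal ComplexConjugate

namespace Pool.Agent.Results.MP_9721b5_an.MostStartingPoints

open Pool.Agent.V8H53.Sta

/-- `hostKra μ T k f` is the Host-Kra seminorm of order `k + 1` of `f`, raised to the power `2 ^ (k + 1)`. -/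
noncomputable def hostKra {X : Type*} [MeasurableSpace X] (μ : Measure X) (T : X → X) : ℕ → (X → ℂ) → ℝ
  | 0, f => limsup (fun N : ℕ => ∫ x, ‖(N : ℂ)⁻¹ * ∑ n ∈ range N, f (T^[n] x)‖ ^ 2 ∂μ) atTop
  | k + 1, f => limsup (fun N : ℕ => (N : ℝ)⁻¹ * ∑ n ∈ range N,
      hostKra μ T k (fun x => f x * conj (f (T^[n] x)))) atTop

/-- The average of `∏ j, f j (T ^ (a j * n) x)` over `v < n ≤ v + N`. -/
noncomputable def avg {X : Type*} (T : X → X) {m : ℕ} (a : Fin m → ℕ) (f : Fin m → X → ℂ) (v N : ℕ) (x : X) : ℂ :=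
  (N : ℂ)⁻¹ * ∑ n ∈ range N, ∏ j, f j (T^[a j * (v + n + 1)] x)

open Classical in
/-- For every `ε > 0` and every `C`, for all large `N` and `H` and all `v, u ≤ C max(N, H)`: for all but
at most `ε H` of the starting points `T ^ (u + h) x`, `h < H`, `F v N'` is at most `ε` there for all `N'`
in `[N, C N]` simultaneously. -/
def SmallAtMostStarts {X : Type*} (T : X → X) (F : ℕ → ℕ → X → ℂ) (x : X) : Prop :=
  ∀ ε : ℝ, 0 < ε → ∀ C : ℕ, ∃ M : ℕ, ∀ N H : ℕ, M ≤ N → M ≤ H → ∀ v u : ℕ,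
    v ≤ C * max N H → u ≤ C * max N H →
    (((range H).filter fun h : ℕ => ∃ N', N ≤ N' ∧ N' ≤ C * N ∧ ε < ‖F v N' (T^[u + h] x)‖).card : ℝ) ≤ ε * H

lemma hostKra_eq {X : Type*} [MeasurableSpace X] (μ : Measure X) (T : X ≃ᵐ X) (k : ℕ) :
    ∀ f : X → ℂ, hostKra μ T k f = Q μ T 1 k f := by
  induction k with
  | zero =>
    intro f
    simp only [hostKra, Q, Av_eq]
  | succ k ih =>
    intro f
    have h : ∀ n : ℕ, (fun x => f x * conj (f (T^[n] x))) = Dl T (n : ℤ) f := by
      intro n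
      funext x
      unfold Dl
      rw [S_nat]
    simp only [hostKra, Q, ih, h]

lemma avg_eq {X : Type*} [MeasurableSpace X] (T : X ≃ᵐ X) {m : ℕ} (a : Fin m → ℕ) (f : Fin m → X → ℂ)
    (v N u h : ℕ) (x : X) :
    avg T a f v N (T^[u + h] x) = blk (PF T (fun j => (a j : ℤ)) f x) ((v : ℤ) + 1) N ((u : ℤ) + h) := by
  unfold avg blk PF
  congr 1
  refine Finset.sum_congr rfl fun n _ => Finset.prod_congr rfl fun j _ => ?_
  congr 1
  rw [← S_nat, ← S_nat, ← S_add]
  congr 1
  push_cast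
  ring

/-- from a small mean square to most starting points -/
lemma starts {X : Type*} [MeasurableSpace X] {T : X ≃ᵐ X} {x : X} {p : ℤ → ℤ → ℂ} (hp : MS p) {B : ℝ}
    (hB : 0 < B) (hpB : ∀ n h, ‖p n h‖ ≤ B) {F : ℕ → ℕ → X → ℂ}
    (hF : ∀ v N u h : ℕ, 0 < N → F v N (T^[u + h] x) = blk p ((v : ℤ) + 1) N ((u : ℤ) + h)) :
    SmallAtMostStarts T F x := by
  classical
  intro ε hε C
  obtain ⟨M, hM0, hM⟩ := exc hp hB hpB (C + 1) hε
  refine ⟨M, fun N H hN hH v u hv hu => ?_⟩
  have hmax : 1 ≤ max N H := le_max_of_le_left (by omega)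
  have hv' : |((v : ℤ) + 1)| ≤ ((C + 1) * max N H : ℕ) := by
    have h1 : v + 1 ≤ (C + 1) * max N H := by
      rw [add_mul, one_mul]
      omega
    rw [abs_of_nonneg (by positivity)]
    exact_mod_cast h1
  have hu' : |(u : ℤ)| ≤ ((C + 1) * max N H : ℕ) := by
    have h1 : u ≤ (C + 1) * max N H := by
      rw [add_mul, one_mul]
      omega
    rw [abs_of_nonneg (by positivity)]
    exact_mod_cast h1
  have h1 := hM N H hN hH ((v : ℤ) + 1) (u : ℤ) hv' hu'
  refine le_trans ?_ h1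
  have h2 : ((range H).filter fun h : ℕ => ∃ N', N ≤ N' ∧ N' ≤ C * N ∧ ε < ‖F v N' (T^[u + h] x)‖) ⊆
      ((range H).filter fun h : ℕ => ∃ N', N ≤ N' ∧ N' ≤ (C + 1) * N ∧
        ε < ‖blk p ((v : ℤ) + 1) N' ((u : ℤ) + h)‖) := by
    intro h hh
    rw [Finset.mem_filter] at hh ⊢
    obtain ⟨hh1, N', hN1, hN2, hN3⟩ := hh
    refine ⟨hh1, N', hN1, ?_, ?_⟩
    · rw [add_mul, one_mul]
      omega
    · rw [hF v N' u h (by omega)] at hN3
      exact hN3
  have h3 := Finset.card_le_card h2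
  convert (Nat.cast_le (α := ℝ)).2 h3

lemma starts_congr {X : Type*} {T : X → X} {F G : ℕ → ℕ → X → ℂ} {x : X}
    (h : ∀ v N y, 0 < N → F v N y = G v N y) (hF : SmallAtMostStarts T F x) : SmallAtMostStarts T G x := by
  classical
  intro ε hε C
  obtain ⟨M, hM⟩ := hF ε hε C
  refine ⟨M + 1, fun N H hN hH v u hv hu => ?_⟩
  have h1 := hM N H (by omega) (by omega) v u hv hu
  refine le_trans ?_ h1
  have h2 : ((range H).filter fun h : ℕ => ∃ N', N ≤ N' ∧ N' ≤ C * N ∧ ε < ‖G v N' (T^[u + h] x)‖) ⊆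
      ((range H).filter fun h : ℕ => ∃ N', N ≤ N' ∧ N' ≤ C * N ∧ ε < ‖F v N' (T^[u + h] x)‖) := by
    intro k hk
    rw [Finset.mem_filter] at hk ⊢
    obtain ⟨hk1, N', hN1, hN2, hN3⟩ := hk
    refine ⟨hk1, N', hN1, hN2, ?_⟩
    rw [h v N' _ (by omega)]
    exact hN3
  have h3 := Finset.card_le_card h2
  convert (Nat.cast_le (α := ℝ)).2 h3

/-- Let `T` be an invertible measure preserving map of a probability space, `m ≥ 2`, and let
`a 0, …, a (m - 1)` be distinct positive integers.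

* If `f j`, `g j` are bounded and measurable, and the Host-Kra seminorm of order `m` of `f j - g j`
  vanishes for every `j`, then for almost every `x` the difference of the averages of `f` and of `g` is
  small at most starting points of the orbit of `x`.
* If `T` is weakly mixing (`T × T` is ergodic), then for all bounded measurable `f j`, for almost every
  `x`, the averages are close to `∏ j, ∫ f j` at most starting points of the orbit of `x`. -/
theorem result {X : Type*} [MeasurableSpace X] (μ : Measure X) [IsProbabilityMeasure μ] (T : X ≃ᵐ X)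
    (hT : MeasurePreserving T μ μ) (m : ℕ) (hm : 2 ≤ m) (a : Fin m → ℕ) (ha : ∀ j, 0 < a j)
    (hinj : Function.Injective a) :
    (∀ f g : Fin m → X → ℂ, (∀ j, Measurable (f j)) → (∀ j, Measurable (g j)) →
      (∃ R : ℝ, ∀ j x, ‖f j x‖ ≤ R ∧ ‖g j x‖ ≤ R) →
      (∀ j, hostKra μ T (m - 1) (fun x => f j x - g j x) = 0) →
      ∀ᵐ x ∂μ, SmallAtMostStarts T (fun v N y => avg T a f v N y - avg T a g v N y) x) ∧
    (Ergodic (Prod.map T T) (μ.prod μ) → ∀ f : Fin m → X → ℂ, (∀ j, Measurable (f j)) →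
      (∃ R : ℝ, ∀ j x, ‖f j x‖ ≤ R) →
      ∀ᵐ x ∂μ, SmallAtMostStarts T (fun v N y => avg T a f v N y - ∏ j, ∫ z, f j z ∂μ) x) := by
  have hinj' : Function.Injective fun j => (a j : ℤ) := fun i j h => hinj (by simpa using h)
  have ha0 : ∀ j, ((a j : ℕ) : ℤ) ≠ 0 := fun j => by exact_mod_cast (ha j).ne'
  have first : ∀ f g : Fin m → X → ℂ, (∀ j, Measurable (f j)) → (∀ j, Measurable (g j)) →
      (∃ R : ℝ, ∀ j x, ‖f j x‖ ≤ R ∧ ‖g j x‖ ≤ R) →
      (∀ j, hostKra μ T (m - 1) (fun x => f j x - g j x) = 0) →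
      ∀ᵐ x ∂μ, SmallAtMostStarts T (fun v N y => avg T a f v N y - avg T a g v N y) x := by
    rintro f g hf hg ⟨R, hR⟩ hQ
    have hfR : ∀ j x, ‖f j x‖ ≤ |R| + 1 := fun j x => (hR j x).1.trans ((le_abs_self R).trans (by linarith))
    have hgR : ∀ j x, ‖g j x‖ ≤ |R| + 1 := fun j x => (hR j x).2.trans ((le_abs_self R).trans (by linarith))
    have hRp : 0 < |R| + 1 := by positivity
    filter_upwards [fam_diff hT hm hinj' ha0 hf hg hRp hfR hgR
      (fun j => by rw [← hostKra_eq]; exact hQ j)] with x hx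
    refine starts hx (B := 2 * (|R| + 1) ^ m) (by positivity) (fun n h => ?_) fun v N u h _ => ?_
    · have h1 := norm_PF_le (T := T) (fun j => (a j : ℤ)) hfR x n h
      have h2 := norm_PF_le (T := T) (fun j => (a j : ℤ)) hgR x n h
      have h3 := norm_sub_le (PF T (fun j => (a j : ℤ)) f x n h) (PF T (fun j => (a j : ℤ)) g x n h)
      linarith
    · rw [avg_eq, avg_eq]
      unfold blk
      rw [← mul_sub, ← Finset.sum_sub_distrib]
  refine ⟨first, ?_⟩
  rintro hwm f hf ⟨R, hR⟩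
  obtain ⟨g, hg⟩ : ∃ g : Fin m → X → ℂ, g = fun j _ => ∫ z, f j z ∂μ := ⟨_, rfl⟩
  have hgm : ∀ j, Measurable (g j) := fun j => by rw [hg]; exact measurable_const
  have hgR : ∀ j x, ‖g j x‖ ≤ R := by
    intro j x
    rw [hg]
    have := norm_integral_le_of_norm_le_const (μ := μ) (f := f j) (C := R) (Eventually.of_forall (hR j))
    simpa using this
  have hQ : ∀ j, hostKra μ T (m - 1) (fun x => f j x - g j x) = 0 := by
    intro j
    have hRp : 0 < |R| + 1 := by positivity
    have hRc : ((|R| + 1 : ℝ) : ℂ) ≠ 0 := by exact_mod_cast hRp.ne'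
    obtain ⟨φ, hφ⟩ : ∃ φ : X → ℂ, φ = fun x => (((2 * (|R| + 1) : ℝ) : ℂ))⁻¹ * (f j x - g j x) := ⟨_, rfl⟩
    have hφm : Measurable φ := by
      rw [hφ]
      exact ((hf j).sub (hgm j)).const_mul _
    have h2R : (0 : ℝ) < 2 * (|R| + 1) := by positivity
    have hφ1 : ∀ x, ‖φ x‖ ≤ 1 := by
      intro x
      rw [hφ]
      simp only
      rw [norm_mul, norm_inv, Complex.norm_real, Real.norm_of_nonneg h2R.le, inv_mul_le_iff₀ h2R, mul_one]
      have h1 := (norm_sub_le (f j x) (g j x)).trans (add_le_add (hR j x) (hgR j x))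
      have h2 := le_abs_self R
      linarith
    have hφint : ∫ x, φ x ∂μ = 0 := by
      have hfi : Integrable (f j) μ := intg (hf j) (hR j)
      have hgi : Integrable (g j) μ := intg (hgm j) (hgR j)
      rw [hφ, integral_const_mul, integral_sub hfi hgi, hg]
      simp
    have hφ0 : Q μ T 1 (m - 1) φ = 0 := by
      apply le_antisymm
      · have := Q_wm hwm (m - 1) hφm hφ1
        rw [hφint] at this
        simpa using this
      · exact Q_nonneg 1 (m - 1) hφ1
    have hback : (fun x => f j x - g j x) = fun x => ((2 * (|R| + 1) : ℝ) : ℂ) * φ x := by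
      funext x
      rw [hφ]
      simp only
      rw [← mul_assoc, mul_inv_cancel₀ (by exact_mod_cast h2R.ne'), one_mul]
    rw [hostKra_eq, hback, Q_smul 1 (m - 1) φ 1 zero_le_one hφ1, hφ0, mul_zero]
  filter_upwards [first f g hf hgm ⟨R, fun j x => ⟨hR j x, hgR j x⟩⟩ hQ] with x hx
  refine starts_congr (fun v N y hN => ?_) hx
  have h2 : avg T a g v N y = ∏ j, ∫ z, f j z ∂μ := by
    unfold avg
    rw [hg]
    have h3 : ((N : ℕ) : ℂ) ≠ 0 := by exact_mod_cast hN.ne'
    rw [Finset.sum_const, Finset.card_range, nsmul_eq_mul, ← mul_assoc, inv_mul_cancel₀ h3, one_mul]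
  rw [h2]

end Pool.Agent.Results.MP_9721b5_an.MostStartingPoints
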